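import Pool.Agent.R620.RB.Inj

/-!
# Decidability of the extensions of the region logic PWRCC-Bound

The language (`Tm`, `Fm`), the systems (`Sys`, `Thm`), the local contact algebras (`IsLCA`,
`Valid`) and the coding of formulas (`Fm.code`) are defined in `Pool/Agent/R620/RB/Defs.lean`.
-/

set_option autoImplicit false

namespace Pool.Agent.Results.MP_ad6a67_lc.Decidable

open Pool.Agent.R620.RB

/-- For every choice `S` of (Con), (Ext), (Nor) (and with or without the axiom `0 ≠ 1`): the
theorems of PWRCC-Bound_S are the formulas valid in the local contact algebras with the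
corresponding conditions, the rules EXT and NOR do not add theorems, and the set of (codes of)
theorems is decided by a primitive recursive function; the coding of formulas is injective. -/
theorem result (S : Sys) :
    (∀ φ : Fm, Thm S φ ↔ Valid S φ) ∧
    (∀ φ : Fm, Thm S φ ↔ Thm ⟨S.con, False, False, S.nd⟩ φ) ∧
    Function.Injective Fm.code ∧
    ∃ f : List (ℕ × ℕ × ℕ) → Bool, Primrec f ∧ ∀ φ : Fm, f φ.code = true ↔ Thm S φ := by
  refine ⟨fun φ => thm_iff_valid, fun φ => ?_, code_injective, decidable S⟩
  rw [thm_iff_cs φ.ub le_rfl, thm_iff_cs φ.ub le_rfl]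
  refine forall_congr' fun m => forall_congr' fun e => forall_congr' fun u => ?_
  refine imp_congr_left ?_
  exact ⟨fun h => ⟨h.refl, h.symm, h.conn, h.nd⟩, fun h => ⟨h.refl, h.symm, h.conn, h.nd⟩⟩

end Pool.Agent.Results.MP_ad6a67_lc.Decidable
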